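import Pool.Agent.H51.KB.Gc

/-!
# The least singular value of a tall complex Gaussian matrix

For a matrix with `K` rows (`3n ≤ K ≤ 4n`) and `n` columns of independent standard complex Gaussians, the
probability that some unit vector `v` has `∑_s |(A v)_s|² < n/100000` is at most `(1/60)^n`. The proof uses
averages over balls.
-/

set_option autoImplicit false

open MeasureTheory Complex ProbabilityTheory
open scoped ENNReal ComplexConjugate RealInnerProductSpace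

namespace Pool.Agent.H51.KB

section one

variable {T : Type*} [Fintype T]

/-- the moment generating function of `|z|²` -/
theorem exp_gc (t : ℝ) (ht : t < 1) : ∫ z, Real.exp (t * ‖z‖ ^ 2) ∂gc = (1 - t)⁻¹ := by
  rw [integral_gc]
  have e : ∀ z : ℂ, gd z • Real.exp (t * ‖z‖ ^ 2) = Real.exp (-(1 - t) * ‖z‖ ^ 2) / Real.pi := by
    intro z
    rw [gd, smul_eq_mul, div_mul_eq_mul_div, ← Real.exp_add]
    congr 2
    ring
  simp_rw [e]
  rw [integral_div, integral_exp_neg _ (by linarith)]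
  have : (1 - t) ≠ 0 := by linarith
  field_simp

theorem exp_pi (t : ℝ) (ht : t < 1) :
    ∫ z : T → ℂ, Real.exp (t * ∑ s, ‖z s‖ ^ 2) ∂(Measure.pi fun _ : T => gc) =
      ((1 - t)⁻¹) ^ Fintype.card T := by
  have e : ∀ z : T → ℂ, Real.exp (t * ∑ s, ‖z s‖ ^ 2) = ∏ s, Real.exp (t * ‖z s‖ ^ 2) := by
    intro z
    rw [← Real.exp_sum, Finset.mul_sum]
  simp_rw [e]
  rw [integral_fintype_prod_eq_pow (fun z : ℂ => Real.exp (t * ‖z‖ ^ 2)), exp_gc t ht]

theorem integrable_exp_pi (t : ℝ) (ht : t < 1) :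
    Integrable (fun z : T → ℂ => Real.exp (t * ∑ s, ‖z s‖ ^ 2)) (Measure.pi fun _ : T => gc) := by
  by_contra h
  have h1 := integral_undef h
  rw [exp_pi t ht] at h1
  have h2 : 0 < (1 - t)⁻¹ := inv_pos.mpr (by linarith)
  exact (pow_pos h2 _).ne' h1

/-- small ball -/
theorem small (t r : ℝ) (ht : 0 ≤ t) :
    (Measure.pi fun _ : T => gc) {z : T → ℂ | ∑ s, ‖z s‖ ^ 2 ≤ r} ≤
      ENNReal.ofReal (Real.exp (t * r) * ((1 + t)⁻¹) ^ Fintype.card T) := by
  have h := measure_le_le_exp_mul_mgf (μ := Measure.pi fun _ : T => gc)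
    (X := fun z : T → ℂ => ∑ s, ‖z s‖ ^ 2) (t := -t) r (by linarith)
    (integrable_exp_pi (-t) (by linarith))
  rw [mgf, exp_pi (-t) (by linarith), neg_neg, sub_neg_eq_add] at h
  rw [← ENNReal.ofReal_toReal (measure_ne_top (Measure.pi fun _ : T => gc) _)]
  exact ENNReal.ofReal_le_ofReal h

/-- large deviations -/
theorem large (r : ℝ) :
    (Measure.pi fun _ : T => gc) {z : T → ℂ | r ≤ ∑ s, ‖z s‖ ^ 2} ≤
      ENNReal.ofReal (Real.exp (-(r / 2)) * 2 ^ Fintype.card T) := by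
  have h := measure_ge_le_exp_mul_mgf (μ := Measure.pi fun _ : T => gc)
    (X := fun z : T → ℂ => ∑ s, ‖z s‖ ^ 2) (t := 1 / 2) r (by norm_num)
    (integrable_exp_pi (1 / 2) (by norm_num))
  rw [mgf, exp_pi (1 / 2) (by norm_num)] at h
  rw [← ENNReal.ofReal_toReal (measure_ne_top (Measure.pi fun _ : T => gc) _)]
  refine ENNReal.ofReal_le_ofReal (h.trans (le_of_eq ?_))
  congr 1
  · congr 1
    ring
  · norm_num

end one

section two

variable {T : Type*} {n : ℕ}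

/-- the Hermitian space `ℂ^n` -/
abbrev E (n : ℕ) := EuclideanSpace ℂ (Fin n)

/-- the product of the matrix `A` and the vector `w` -/
noncomputable def L (A : T → Fin n → ℂ) (w : E n) : EuclideanSpace ℂ T :=
  WithLp.toLp 2 fun s => ∑ i, A s i * w i

theorem L_add (A : T → Fin n → ℂ) (w w' : E n) : L A (w + w') = L A w + L A w' := by
  ext s
  simp only [L, PiLp.add_apply, mul_add, Finset.sum_add_distrib]

theorem L_smul (A : T → Fin n → ℂ) (c : ℂ) (w : E n) : L A (c • w) = c • L A w := by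
  ext s
  simp only [L, PiLp.smul_apply, smul_eq_mul, Finset.mul_sum]
  exact Finset.sum_congr rfl fun i _ => by ring

theorem L_sub (A : T → Fin n → ℂ) (w w' : E n) : L A (w - w') = L A w - L A w' := by
  ext s
  simp only [L, PiLp.sub_apply, mul_sub, Finset.sum_sub_distrib]

variable [Fintype T]

theorem norm_L (A : T → Fin n → ℂ) (w : E n) : ‖L A w‖ ^ 2 = ∑ s, ‖∑ i, A s i * w i‖ ^ 2 := by
  rw [EuclideanSpace.norm_sq_eq]
  rfl

theorem continuous_L : Continuous fun p : (T → Fin n → ℂ) × E n => L p.1 p.2 := by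
  unfold L
  fun_prop

/-- the law of a Gaussian matrix -/
noncomputable abbrev gm (T : Type*) [Fintype T] (n : ℕ) : Measure (T → Fin n → ℂ) :=
  Measure.pi fun _ : T => Measure.pi fun _ : Fin n => gc

theorem map_gm (w : Fin n → ℂ) (hw : ∑ i, ‖w i‖ ^ 2 = 1) :
    (gm T n).map (fun A s => ∑ i, A s i * w i) = Measure.pi fun _ : T => gc := by
  have hm : Measurable fun u : Fin n → ℂ => ∑ i, u i * w i := by fun_prop
  have h := Measure.pi_map_pi (μ := fun _ : T => Measure.pi fun _ : Fin n => gc)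
    (f := fun _ : T => fun u : Fin n → ℂ => ∑ i, u i * w i)
    (hμ := fun _ => by rw [map_sum w hw]; infer_instance) (fun _ => hm.aemeasurable)
  rw [map_sum w hw] at h
  exact h

/-- scaling -/
theorem unit_of (w : E n) (hw : w ≠ 0) :
    ∑ i, ‖((‖w‖⁻¹ : ℝ) : ℂ) * w i‖ ^ 2 = 1 := by
  have h0 : ‖w‖ ≠ 0 := norm_ne_zero_iff.mpr hw
  simp_rw [norm_mul, mul_pow]
  rw [← Finset.mul_sum, ← EuclideanSpace.norm_sq_eq]
  simp only [Complex.norm_real, norm_inv, norm_norm]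
  field_simp

theorem norm_L_eq (A : T → Fin n → ℂ) (w : E n) (hw : w ≠ 0) :
    ‖L A w‖ ^ 2 = ‖w‖ ^ 2 * ∑ s, ‖∑ i, A s i * (((‖w‖⁻¹ : ℝ) : ℂ) * w i)‖ ^ 2 := by
  have h0 : ‖w‖ ≠ 0 := norm_ne_zero_iff.mpr hw
  rw [norm_L, Finset.mul_sum]
  refine Finset.sum_congr rfl fun s _ => ?_
  have e : ∑ i, A s i * (((‖w‖⁻¹ : ℝ) : ℂ) * w i) = ((‖w‖⁻¹ : ℝ) : ℂ) * ∑ i, A s i * w i := by
    rw [Finset.mul_sum]
    exact Finset.sum_congr rfl fun i _ => by ring
  rw [e, norm_mul, mul_pow]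
  simp only [Complex.norm_real, norm_inv, norm_norm]
  field_simp

/-- small ball for a fixed vector -/
theorem small_fixed (t r : ℝ) (ht : 0 ≤ t) (w : E n) (hw : w ≠ 0) :
    gm T n {A | ‖L A w‖ ^ 2 ≤ r * ‖w‖ ^ 2} ≤
      ENNReal.ofReal (Real.exp (t * r) * ((1 + t)⁻¹) ^ Fintype.card T) := by
  have h0 : 0 < ‖w‖ ^ 2 := by positivity
  have h := small (T := T) t r ht
  rw [← map_gm (T := T) _ (unit_of w hw), Measure.map_apply (by fun_prop)
    (measurableSet_le (by fun_prop) measurable_const)] at h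
  refine le_trans (measure_mono ?_) h
  intro A hA
  have hA' : ‖L A w‖ ^ 2 ≤ r * ‖w‖ ^ 2 := hA
  rw [norm_L_eq A w hw] at hA'
  show ∑ s, ‖∑ i, A s i * (((‖w‖⁻¹ : ℝ) : ℂ) * w i)‖ ^ 2 ≤ r
  exact le_of_mul_le_mul_left (by linarith) h0

/-- large deviations for a fixed vector -/
theorem large_fixed (r : ℝ) (w : E n) (hw : w ≠ 0) :
    gm T n {A | r * ‖w‖ ^ 2 ≤ ‖L A w‖ ^ 2} ≤
      ENNReal.ofReal (Real.exp (-(r / 2)) * 2 ^ Fintype.card T) := by
  have h0 : 0 < ‖w‖ ^ 2 := by positivity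
  have h := large (T := T) r
  rw [← map_gm (T := T) _ (unit_of w hw), Measure.map_apply (by fun_prop)
    (measurableSet_le measurable_const (by fun_prop))] at h
  refine le_trans (measure_mono ?_) h
  intro A hA
  have hA' : r * ‖w‖ ^ 2 ≤ ‖L A w‖ ^ 2 := hA
  rw [norm_L_eq A w hw] at hA'
  show r ≤ ∑ s, ‖∑ i, A s i * (((‖w‖⁻¹ : ℝ) : ℂ) * w i)‖ ^ 2
  exact le_of_mul_le_mul_left (by linarith) h0

/-- averages -/
theorem avg {Ω F : Type*} [MeasurableSpace Ω] [MeasurableSpace F] (P : Measure Ω) [SFinite P]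
    (μ : Measure F) [SFinite μ] {Q : Set F} (hQ : MeasurableSet Q) {R : Set (Ω × F)}
    (hR : MeasurableSet R) (S : Set Ω) (c p : ℝ≥0∞)
    (h1 : ∀ A ∈ S, c ≤ μ (Q ∩ {w | (A, w) ∈ R})) (h2 : ∀ w ∈ Q, P {A | (A, w) ∈ R} ≤ p) :
    c * P S ≤ p * μ Q := by
  have hm : Measurable fun A => (μ.restrict Q) (Prod.mk A ⁻¹' R) :=
    measurable_measure_prodMk_left hR
  have hS : S ⊆ {A | c ≤ (μ.restrict Q) (Prod.mk A ⁻¹' R)} := by
    intro A hA
    show c ≤ (μ.restrict Q) (Prod.mk A ⁻¹' R)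
    rw [Measure.restrict_apply (measurable_prodMk_left hR), Set.inter_comm]
    exact h1 A hA
  calc c * P S ≤ c * P {A | c ≤ (μ.restrict Q) (Prod.mk A ⁻¹' R)} := by gcongr
    _ ≤ ∫⁻ A, (μ.restrict Q) (Prod.mk A ⁻¹' R) ∂P := mul_meas_ge_le_lintegral hm c
    _ = (P.prod (μ.restrict Q)) R := (Measure.prod_apply hR).symm
    _ = ∫⁻ w in Q, P ((fun A => (A, w)) ⁻¹' R) ∂μ := Measure.prod_apply_symm hR
    _ ≤ ∫⁻ w in Q, p ∂μ := setLIntegral_mono' hQ fun w hw => h2 w hw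
    _ = p * μ Q := by rw [setLIntegral_const]

theorem vol_ball (x : E n) {r : ℝ} (hr : 0 < r) :
    volume (Metric.ball x r) = ENNReal.ofReal ((r ^ 2) ^ n) * volume (Metric.ball (0 : E n) 1) := by
  rw [Measure.addHaar_ball_of_pos _ _ hr, finrank_real_of_complex]
  congr 2
  simp [pow_mul]

theorem vol_closedBall (x : E n) {r : ℝ} (hr : 0 < r) :
    volume (Metric.closedBall x r) =
      ENNReal.ofReal ((r ^ 2) ^ n) * volume (Metric.ball (0 : E n) 1) := by
  rw [Measure.addHaar_closedBall _ _ hr.le, finrank_real_of_complex]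
  congr 2
  simp [pow_mul]

theorem cancel {a b : ℝ} (ha : 0 < a) {V P : ℝ≥0∞} (hV0 : V ≠ 0) (hV : V ≠ ∞)
    (h : ENNReal.ofReal a * V * P ≤ ENNReal.ofReal b * V) : P ≤ ENNReal.ofReal (b / a) := by
  have h1 : V * (ENNReal.ofReal a * P) ≤ V * ENNReal.ofReal b := by
    calc V * (ENNReal.ofReal a * P) = ENNReal.ofReal a * V * P := by ring
      _ ≤ _ := h
      _ = V * ENNReal.ofReal b := by ring
  have h2 : ENNReal.ofReal a * P ≤ ENNReal.ofReal b := (ENNReal.mul_le_mul_iff_right hV0 hV).mp h1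
  rw [ENNReal.ofReal_div_of_pos ha]
  rw [ENNReal.le_div_iff_mul_le (Or.inl (by simpa using ha)) (Or.inl ENNReal.ofReal_ne_top)]
  rwa [mul_comm]

/-- the norm of a Gaussian matrix -/
theorem high {B : ℝ} (hB : 0 < B) :
    gm T n {A | ∃ w : E n, B * ‖w‖ ^ 2 < ‖L A w‖ ^ 2} ≤
      ENNReal.ofReal (9 ^ n * (Real.exp (-(B / 18)) * 2 ^ Fintype.card T)) := by
  have hQ : MeasurableSet ({w : E n | 1 / 2 ≤ ‖w‖} ∩ {w | ‖w‖ ≤ 3 / 2}) :=
    (measurableSet_le measurable_const measurable_norm).inter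
      (measurableSet_le measurable_norm measurable_const)
  have hcL : Continuous fun p : (T → Fin n → ℂ) × E n => L p.1 p.2 := continuous_L
  have hR : MeasurableSet {p : (T → Fin n → ℂ) × E n | B / 9 * ‖p.2‖ ^ 2 ≤ ‖L p.1 p.2‖ ^ 2} :=
    measurableSet_le (Continuous.measurable (by fun_prop)) (Continuous.measurable (by fun_prop))
  have h := avg (gm T n) (volume : Measure (E n)) hQ hR
    {A | ∃ w : E n, B * ‖w‖ ^ 2 < ‖L A w‖ ^ 2}
    (ENNReal.ofReal (((1 / 2 : ℝ) ^ 2) ^ n) * volume (Metric.ball (0 : E n) 1))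
    (ENNReal.ofReal (Real.exp (-(B / 18)) * 2 ^ Fintype.card T)) ?_ ?_
  · have h' : ENNReal.ofReal (((1 / 2 : ℝ) ^ 2) ^ n) * volume (Metric.ball (0 : E n) 1) *
        gm T n {A | ∃ w : E n, B * ‖w‖ ^ 2 < ‖L A w‖ ^ 2} ≤
        ENNReal.ofReal ((Real.exp (-(B / 18)) * 2 ^ Fintype.card T) * ((3 / 2 : ℝ) ^ 2) ^ n) *
          volume (Metric.ball (0 : E n) 1) := by
      refine h.trans ?_
      have hQ2 : volume ({w : E n | 1 / 2 ≤ ‖w‖} ∩ {w | ‖w‖ ≤ 3 / 2}) ≤
          ENNReal.ofReal (((3 / 2 : ℝ) ^ 2) ^ n) * volume (Metric.ball (0 : E n) 1) := by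
        rw [← vol_closedBall (0 : E n) (by norm_num : (0 : ℝ) < 3 / 2)]
        refine measure_mono fun w hw => ?_
        rw [mem_closedBall_zero_iff]
        exact hw.2
      rw [ENNReal.ofReal_mul (p := Real.exp (-(B / 18)) * 2 ^ Fintype.card T) (by positivity),
        mul_assoc]
      exact mul_le_mul_right hQ2 _
    refine (cancel (by positivity) (Metric.measure_ball_pos _ _ one_pos).ne'
      measure_ball_lt_top.ne h').trans (ENNReal.ofReal_le_ofReal (le_of_eq ?_))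
    rw [mul_div_assoc, ← div_pow]
    norm_num
    ring
  · -- the ball around the maximiser
    rintro A ⟨w0, hw0⟩
    have hcA : Continuous fun w : E n => ‖L A w‖ :=
      (hcL.comp (Continuous.prodMk_right A)).norm
    obtain ⟨v, hv, hmax⟩ := (isCompact_closedBall (0 : E n) 1).exists_isMaxOn
      ⟨0, by simp⟩ hcA.continuousOn
    have hle : ∀ u : E n, ‖L A u‖ ≤ ‖L A v‖ * ‖u‖ := by
      intro u
      by_cases hu : u = 0
      · subst hu
        have : L A (0 : E n) = 0 := by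
          have := L_smul A 0 (0 : E n)
          simpa using this
        simp [this]
      · have hu0 : 0 < ‖u‖ := norm_pos_iff.mpr hu
        have h1 : ((‖u‖⁻¹ : ℝ) : ℂ) • u ∈ Metric.closedBall (0 : E n) 1 := by
          rw [mem_closedBall_zero_iff, norm_smul]
          simp only [Complex.norm_real, norm_inv, norm_norm]
          rw [inv_mul_cancel₀ hu0.ne']
        have h2 : ‖L A (((‖u‖⁻¹ : ℝ) : ℂ) • u)‖ ≤ ‖L A v‖ := hmax h1
        simp only [L_smul, norm_smul, Complex.norm_real, norm_inv, norm_norm] at h2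
        have h3 : ‖L A u‖ = ‖u‖ * (‖u‖⁻¹ * ‖L A u‖) := by
          rw [← mul_assoc, mul_inv_cancel₀ hu0.ne', one_mul]
        rw [h3, mul_comm (‖L A v‖)]
        gcongr
    set N := ‖L A v‖ with hN
    have hN0 : 0 ≤ N := norm_nonneg _
    have hBN : B < N ^ 2 := by
      have h1 := hle w0
      have h2 : ‖L A w0‖ ^ 2 ≤ (N * ‖w0‖) ^ 2 := pow_le_pow_left₀ (norm_nonneg _) h1 2
      have h3 : B * ‖w0‖ ^ 2 < N ^ 2 * ‖w0‖ ^ 2 := by
        rw [← mul_pow]
        exact hw0.trans_le h2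
      exact lt_of_mul_lt_mul_right h3 (by positivity)
    have hNpos : 0 < N := by
      rcases hN0.eq_or_lt with h | h
      · rw [← h] at hBN
        norm_num at hBN
        linarith
      · exact h
    have hv1 : ‖v‖ = 1 := by
      have h1 : ‖v‖ ≤ 1 := by simpa using hv
      have h2 := hle v
      rw [← hN] at h2
      have h3 : 1 ≤ ‖v‖ := by
        by_contra h4
        push Not at h4
        nlinarith
      linarith
    rw [← vol_ball v (by norm_num : (0 : ℝ) < 1 / 2)]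
    refine measure_mono fun w hw => ?_
    have hd : ‖w - v‖ < 1 / 2 := by simpa [dist_eq_norm] using hw
    have h5 : ‖w‖ ≤ 3 / 2 := by
      have := norm_add_le (w - v) v
      rw [sub_add_cancel] at this
      linarith
    have h6 : 1 / 2 ≤ ‖w‖ := by
      have := norm_sub_norm_le v w
      rw [norm_sub_rev] at this
      linarith
    refine ⟨⟨h6, h5⟩, ?_⟩
    show B / 9 * ‖w‖ ^ 2 ≤ ‖L A w‖ ^ 2
    have h7 : N / 2 ≤ ‖L A w‖ := by
      have e : L A v = L A w - L A (w - v) := by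
        rw [L_sub]
        abel
      have h8 : N ≤ ‖L A w‖ + ‖L A (w - v)‖ := by
        rw [hN, e]
        exact norm_sub_le _ _
      have h9 := hle (w - v)
      nlinarith
    have h10 : (N / 2) ^ 2 ≤ ‖L A w‖ ^ 2 := pow_le_pow_left₀ (by linarith) h7 2
    have h11 : ‖w‖ ^ 2 ≤ (3 / 2) ^ 2 := pow_le_pow_left₀ (norm_nonneg _) h5 2
    nlinarith
  · rintro w ⟨hw, -⟩
    have hw0 : w ≠ 0 := by
      rintro rfl
      norm_num at hw
    have h := large_fixed (T := T) (B / 9) w hw0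
    refine h.trans (le_of_eq ?_)
    congr 3
    ring

/-- the least singular value on the event that the norm is not large -/
theorem low {x B t : ℝ} (hx : 0 < x) (hB : 16 * x ≤ B) (ht : 0 ≤ t) :
    gm T n {A | (∃ v : E n, ‖v‖ = 1 ∧ ‖L A v‖ ^ 2 < x) ∧ ∀ w : E n, ‖L A w‖ ^ 2 ≤ B * ‖w‖ ^ 2} ≤
      ENNReal.ofReal ((B / x) ^ n * (Real.exp (t * (64 * x)) * ((1 + t)⁻¹) ^ Fintype.card T)) := by
  have hB0 : 0 < B := by linarith
  have hQ : MeasurableSet ({w : E n | 1 / 4 ≤ ‖w‖} ∩ {w | ‖w‖ ≤ 1}) :=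
    (measurableSet_le measurable_const measurable_norm).inter
      (measurableSet_le measurable_norm measurable_const)
  have hcL : Continuous fun p : (T → Fin n → ℂ) × E n => L p.1 p.2 := continuous_L
  have hR : MeasurableSet {p : (T → Fin n → ℂ) × E n | ‖L p.1 p.2‖ ^ 2 ≤ 64 * x * ‖p.2‖ ^ 2} :=
    measurableSet_le (Continuous.measurable (by fun_prop)) (Continuous.measurable (by fun_prop))
  set ρ := Real.sqrt (x / B) with hρ
  have hρ2 : ρ ^ 2 = x / B := Real.sq_sqrt (by positivity)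
  have hρ0 : 0 < ρ := Real.sqrt_pos.mpr (by positivity)
  have hρ4 : ρ ≤ 1 / 4 := by
    rw [hρ]
    apply Real.sqrt_le_iff.mpr
    refine ⟨by norm_num, ?_⟩
    rw [div_le_iff₀ hB0]
    linarith
  have h := avg (gm T n) (volume : Measure (E n)) hQ hR
    {A | (∃ v : E n, ‖v‖ = 1 ∧ ‖L A v‖ ^ 2 < x) ∧ ∀ w : E n, ‖L A w‖ ^ 2 ≤ B * ‖w‖ ^ 2}
    (ENNReal.ofReal ((ρ ^ 2) ^ n) * volume (Metric.ball (0 : E n) 1))
    (ENNReal.ofReal (Real.exp (t * (64 * x)) * ((1 + t)⁻¹) ^ Fintype.card T)) ?_ ?_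
  · have h' : ENNReal.ofReal ((ρ ^ 2) ^ n) * volume (Metric.ball (0 : E n) 1) *
        gm T n {A | (∃ v : E n, ‖v‖ = 1 ∧ ‖L A v‖ ^ 2 < x) ∧
          ∀ w : E n, ‖L A w‖ ^ 2 ≤ B * ‖w‖ ^ 2} ≤
        ENNReal.ofReal (Real.exp (t * (64 * x)) * ((1 + t)⁻¹) ^ Fintype.card T) *
          volume (Metric.ball (0 : E n) 1) := by
      refine h.trans ?_
      have hQ2 : volume ({w : E n | 1 / 4 ≤ ‖w‖} ∩ {w | ‖w‖ ≤ 1}) ≤
          volume (Metric.ball (0 : E n) 1) := by
        have h1 := vol_closedBall (0 : E n) (one_pos : (0 : ℝ) < 1)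
        rw [one_pow, one_pow, ENNReal.ofReal_one, one_mul] at h1
        rw [← h1]
        refine measure_mono fun w hw => ?_
        rw [mem_closedBall_zero_iff]
        exact hw.2
      exact mul_le_mul_right hQ2 _
    refine (cancel (by positivity) (Metric.measure_ball_pos _ _ one_pos).ne'
      measure_ball_lt_top.ne h').trans (ENNReal.ofReal_le_ofReal (le_of_eq ?_))
    rw [hρ2, div_pow, div_pow]
    field_simp
  · rintro A ⟨⟨v, hv, hvx⟩, hbd⟩
    have hhalf : ‖((1 / 2 : ℝ) : ℂ) • v‖ = 1 / 2 := by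
      rw [norm_smul, hv, Complex.norm_real]
      norm_num
    rw [← vol_ball (((1 / 2 : ℝ) : ℂ) • v) hρ0]
    refine measure_mono fun w hw => ?_
    have hd : ‖w - ((1 / 2 : ℝ) : ℂ) • v‖ < ρ := by simpa [dist_eq_norm] using hw
    have h5 : ‖w‖ ≤ 1 := by
      have := norm_add_le (w - ((1 / 2 : ℝ) : ℂ) • v) (((1 / 2 : ℝ) : ℂ) • v)
      rw [sub_add_cancel, hhalf] at this
      linarith
    have h6 : 1 / 4 ≤ ‖w‖ := by
      have := norm_sub_norm_le (((1 / 2 : ℝ) : ℂ) • v) w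
      rw [norm_sub_rev, hhalf] at this
      linarith
    refine ⟨⟨h6, h5⟩, ?_⟩
    show ‖L A w‖ ^ 2 ≤ 64 * x * ‖w‖ ^ 2
    have h7 : ‖L A w‖ ≤ 3 / 2 * Real.sqrt x := by
      have e : L A w = L A (w - ((1 / 2 : ℝ) : ℂ) • v) + L A (((1 / 2 : ℝ) : ℂ) • v) := by
        rw [← L_add, sub_add_cancel]
      have h8 : ‖L A (((1 / 2 : ℝ) : ℂ) • v)‖ ≤ 1 / 2 * Real.sqrt x := by
        rw [L_smul, norm_smul, Complex.norm_real]
        have : ‖L A v‖ ≤ Real.sqrt x := Real.le_sqrt_of_sq_le hvx.le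
        have h9 : ‖(1 / 2 : ℝ)‖ = 1 / 2 := by norm_num
        rw [h9]
        gcongr
      have h10 : ‖L A (w - ((1 / 2 : ℝ) : ℂ) • v)‖ ≤ Real.sqrt x := by
        refine Real.le_sqrt_of_sq_le ((hbd _).trans ?_)
        have h11 : ‖w - ((1 / 2 : ℝ) : ℂ) • v‖ ^ 2 ≤ ρ ^ 2 :=
          pow_le_pow_left₀ (norm_nonneg _) hd.le 2
        rw [hρ2] at h11
        calc B * ‖w - ((1 / 2 : ℝ) : ℂ) • v‖ ^ 2 ≤ B * (x / B) := by gcongr
          _ = x := by field_simp
      rw [e]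
      refine (norm_add_le _ _).trans ?_
      linarith
    have h12 : ‖L A w‖ ^ 2 ≤ (3 / 2 * Real.sqrt x) ^ 2 := pow_le_pow_left₀ (norm_nonneg _) h7 2
    rw [mul_pow, Real.sq_sqrt hx.le] at h12
    have h13 : (1 / 4 : ℝ) ^ 2 ≤ ‖w‖ ^ 2 := pow_le_pow_left₀ (by norm_num) h6 2
    nlinarith
  · rintro w ⟨hw, -⟩
    have hw0 : w ≠ 0 := by
      rintro rfl
      norm_num at hw
    exact small_fixed t (64 * x) ht w hw0

/-- TAIL -/
theorem tail (hn : 1 ≤ n) (h1 : 3 * n ≤ Fintype.card T) (h2 : Fintype.card T ≤ 4 * n) :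
    gm T n {A | ∃ v : Fin n → ℂ, ∑ i, ‖v i‖ ^ 2 = 1 ∧
      ∑ s, ‖∑ i, A s i * v i‖ ^ 2 < (n : ℝ) / 100000} ≤ ENNReal.ofReal ((1 / 60) ^ n) := by
  have hn' : (1 : ℝ) ≤ n := by exact_mod_cast hn
  have hsub : {A : T → Fin n → ℂ | ∃ v : Fin n → ℂ, ∑ i, ‖v i‖ ^ 2 = 1 ∧
      ∑ s, ‖∑ i, A s i * v i‖ ^ 2 < (n : ℝ) / 100000} ⊆
      {A | (∃ v : E n, ‖v‖ = 1 ∧ ‖L A v‖ ^ 2 < (n : ℝ) / 100000) ∧
        ∀ w : E n, ‖L A w‖ ^ 2 ≤ 180 * n * ‖w‖ ^ 2} ∪
      {A | ∃ w : E n, 180 * n * ‖w‖ ^ 2 < ‖L A w‖ ^ 2} := by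
    rintro A ⟨v, hv1, hv2⟩
    by_cases h : ∃ w : E n, 180 * n * ‖w‖ ^ 2 < ‖L A w‖ ^ 2
    · exact Or.inr h
    · push Not at h
      refine Or.inl ⟨⟨WithLp.toLp 2 v, ?_, ?_⟩, h⟩
      · rw [EuclideanSpace.norm_eq]
        simp only
        rw [hv1, Real.sqrt_one]
      · rw [norm_L]
        exact hv2
  refine (measure_mono hsub).trans ((measure_union_le _ _).trans ?_)
  have hlow := low (T := T) (n := n) (x := (n : ℝ) / 100000) (B := 180 * n) (t := 4000)
    (by positivity) (by linarith) (by norm_num)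
  have hhigh := high (T := T) (n := n) (B := 180 * n) (by positivity)
  refine (add_le_add hlow hhigh).trans ?_
  rw [← ENNReal.ofReal_add (by positivity) (by positivity)]
  refine ENNReal.ofReal_le_ofReal ?_
  have hexp3 : Real.exp 3 ≤ 21 := by
    have h := Real.exp_one_lt_d9
    have : Real.exp 3 = Real.exp 1 ^ 3 := by
      rw [← Real.exp_nat_mul]
      norm_num
    rw [this]
    calc Real.exp 1 ^ 3 ≤ 2.7182818286 ^ 3 := by gcongr
      _ ≤ 21 := by norm_num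
  have hexp10 : Real.exp (-10) ≤ 1 / 20000 := by
    have h := Real.exp_one_gt_d9
    have e : Real.exp (-10) = (Real.exp 1 ^ 10)⁻¹ := by
      rw [← Real.exp_nat_mul, ← Real.exp_neg]
      norm_num
    rw [e, one_div]
    apply inv_anti₀ (by norm_num)
    calc (20000 : ℝ) ≤ 2.7182818283 ^ 10 := by norm_num
      _ ≤ Real.exp 1 ^ 10 := by gcongr
  -- first term
  have ht1 : (180 * (n : ℝ) / ((n : ℝ) / 100000)) ^ n *
      (Real.exp (4000 * (64 * ((n : ℝ) / 100000))) * ((1 + 4000 : ℝ)⁻¹) ^ Fintype.card T) ≤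
      (6 / 1000) ^ n := by
    have e1 : 180 * (n : ℝ) / ((n : ℝ) / 100000) = 18000000 := by
      field_simp
      norm_num
    have e2 : Real.exp (4000 * (64 * ((n : ℝ) / 100000))) ≤ 21 ^ n := by
      calc Real.exp (4000 * (64 * ((n : ℝ) / 100000))) ≤ Real.exp (n * 3) := by
            apply Real.exp_le_exp.mpr
            linarith
        _ = Real.exp 3 ^ n := Real.exp_nat_mul 3 n
        _ ≤ 21 ^ n := by gcongr
    have e3 : ((1 + 4000 : ℝ)⁻¹) ^ Fintype.card T ≤ (((1 + 4000 : ℝ)⁻¹) ^ 3) ^ n := by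
      rw [← pow_mul]
      exact pow_le_pow_of_le_one (by norm_num) (by norm_num) h1
    rw [e1]
    calc (18000000 : ℝ) ^ n * (Real.exp (4000 * (64 * ((n : ℝ) / 100000))) *
          ((1 + 4000 : ℝ)⁻¹) ^ Fintype.card T)
        ≤ 18000000 ^ n * (21 ^ n * (((1 + 4000 : ℝ)⁻¹) ^ 3) ^ n) := by gcongr
      _ = (18000000 * (21 * ((1 + 4000 : ℝ)⁻¹) ^ 3)) ^ n := by rw [← mul_pow, ← mul_pow]
      _ ≤ (6 / 1000) ^ n := by
        apply pow_le_pow_left₀ (by positivity)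
        norm_num
  -- second term
  have ht2 : 9 ^ n * (Real.exp (-(180 * (n : ℝ) / 18)) * 2 ^ Fintype.card T) ≤
      ((72 : ℝ) / 10000) ^ n := by
    have e1 : Real.exp (-(180 * (n : ℝ) / 18)) = Real.exp (-10) ^ n := by
      rw [← Real.exp_nat_mul]
      congr 1
      ring
    have e2 : (2 : ℝ) ^ Fintype.card T ≤ (2 ^ 4) ^ n := by
      rw [← pow_mul]
      exact pow_le_pow_right₀ (by norm_num) h2
    rw [e1]
    calc (9 : ℝ) ^ n * (Real.exp (-10) ^ n * 2 ^ Fintype.card T)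
        ≤ 9 ^ n * ((1 / 20000) ^ n * (2 ^ 4) ^ n) := by gcongr
      _ = (9 * (1 / 20000 * 2 ^ 4)) ^ n := by rw [← mul_pow, ← mul_pow]
      _ ≤ (72 / 10000) ^ n := by
        apply pow_le_pow_left₀ (by positivity)
        norm_num
  calc _ ≤ (6 / 1000 : ℝ) ^ n + (72 / 10000) ^ n := add_le_add ht1 ht2
    _ ≤ (6 / 1000 + 72 / 10000) ^ n := pow_add_pow_le (by norm_num) (by norm_num) (by omega)
    _ ≤ (1 / 60) ^ n := by
      apply pow_le_pow_left₀ (by norm_num)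
      norm_num

end two

end Pool.Agent.H51.KB
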