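import Pool.Agent.H97.KB.Bad
import Pool.Agent.H51.KB.Tail

/-!
# The probability of the larger bad event (module V4 of THEOREM K')
-/

set_option autoImplicit false

open MeasureTheory Finset
open scoped ENNReal

namespace Pool.Agent.H51.KB

open H97KB Pool.Agent.H57.KB

/-- the law of the rows whose index satisfies `p` -/
theorem preserving {T : Type*} [Fintype T] {n : ℕ} (p : T → Prop) [DecidablePred p] :
    MeasurePreserving (fun (ζ : T → Fin n → ℂ) (s : {s // p s}) => ζ s) (gm T n) (gm {s // p s} n) := by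
  have h1 := measurePreserving_piEquivPiSubtypeProd (fun _ : T => Measure.pi fun _ : Fin n => gc) p
  exact (measurePreserving_fst (μ := gm {s // p s} n) (ν := gm {s // ¬ p s} n)).comp h1

theorem badI_le {n : ℕ} {x : ℝ} (hx : x ≤ (n : ℝ) / 100000) (I : Finset (Fin (4 * n)))
    (hI : I.card ≤ n) : (gm (Fin (4 * n)) n).real (badI n (4 * n) x I) ≤ (1 / 60) ^ n := by
  rcases Nat.eq_zero_or_pos n with h0 | hn
  · subst h0
    rw [pow_zero]
    exact measureReal_le_one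
  have hcard : Fintype.card {s // s ∉ I} = 4 * n - I.card := by
    rw [Fintype.card_subtype_compl]
    simp
  have ht := tail (T := {s // s ∉ I}) (n := n) hn (by omega) (by omega)
  have ho : IsOpen {A : {s // s ∉ I} → Fin n → ℂ | ∃ v : Fin n → ℂ, ∑ i, ‖v i‖ ^ 2 = 1 ∧
      ∑ s, ‖∑ i, A s i * v i‖ ^ 2 < (n : ℝ) / 100000} := by
    have e : {A : {s // s ∉ I} → Fin n → ℂ | ∃ v : Fin n → ℂ, ∑ i, ‖v i‖ ^ 2 = 1 ∧
        ∑ s, ‖∑ i, A s i * v i‖ ^ 2 < (n : ℝ) / 100000} =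
        ⋃ v : Fin n → ℂ, ⋃ _ : ∑ i, ‖v i‖ ^ 2 = 1,
          {A | ∑ s, ‖∑ i, A s i * v i‖ ^ 2 < (n : ℝ) / 100000} := by
      ext A
      simp
    rw [e]
    refine isOpen_iUnion fun v => isOpen_iUnion fun _ => isOpen_lt ?_ continuous_const
    fun_prop
  rw [← (preserving (n := n) fun s => s ∉ I).measure_preimage ho.measurableSet.nullMeasurableSet] at ht
  have hsub : badI n (4 * n) x I ⊆ (fun (ζ : Fin (4 * n) → Fin n → ℂ) (s : {s // s ∉ I}) => ζ s) ⁻¹'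
      {A : {s // s ∉ I} → Fin n → ℂ | ∃ v : Fin n → ℂ, ∑ i, ‖v i‖ ^ 2 = 1 ∧
        ∑ s, ‖∑ i, A s i * v i‖ ^ 2 < (n : ℝ) / 100000} := by
    rintro ζ ⟨v, hv, hlt⟩
    refine ⟨v, hv, ?_⟩
    have e : ∑ s : {s // s ∉ I}, ‖∑ i, ζ s i * v i‖ ^ 2 = ∑ s ∈ Iᶜ, qf ζ s v := by
      rw [← Finset.sum_subtype (Iᶜ) (fun s => by simp) fun s => ‖∑ i, ζ s i * v i‖ ^ 2]
      rfl
    show ∑ s : {s // s ∉ I}, ‖∑ i, ζ s i * v i‖ ^ 2 < _
    rw [e]
    linarith
  have h2 : gm (Fin (4 * n)) n (badI n (4 * n) x I) ≤ ENNReal.ofReal ((1 / 60) ^ n) :=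
    (measure_mono hsub).trans ht
  rw [Measure.real]
  exact ENNReal.toReal_le_of_le_ofReal (by positivity) h2

end Pool.Agent.H51.KB
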