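import Mathlib

/-!
# The standard complex Gaussian measure on `ℂ`

`gc` has density `exp(-|z|²)/π`. The main fact: if `∑ |w_i|² = 1`, then `∑ u_i w_i` has law `gc` when the `u_i`
are independent with law `gc`.
-/

set_option autoImplicit false

open MeasureTheory Complex
open scoped ENNReal ComplexConjugate RealInnerProductSpace

namespace Pool.Agent.H51.KB

/-- the density of the standard complex Gaussian measure -/
noncomputable def gd (z : ℂ) : ℝ := Real.exp (-‖z‖ ^ 2) / Real.pi

/-- the standard complex Gaussian measure -/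
noncomputable def gc : Measure ℂ := (volume : Measure ℂ).withDensity fun z => ENNReal.ofReal (gd z)

theorem gd_nonneg (z : ℂ) : 0 ≤ gd z := by unfold gd; positivity

theorem gd_le (z : ℂ) : gd z ≤ 1 / Real.pi := by
  unfold gd
  have : Real.exp (-‖z‖ ^ 2) ≤ 1 := Real.exp_le_one_iff.mpr (by nlinarith [sq_nonneg ‖z‖])
  gcongr

theorem continuous_gd : Continuous gd := by unfold gd; fun_prop

theorem measurable_gd : Measurable fun z : ℂ => ENNReal.ofReal (gd z) :=
  ENNReal.measurable_ofReal.comp continuous_gd.measurable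

theorem integral_exp_neg (b : ℝ) (hb : 0 < b) : ∫ z : ℂ, Real.exp (-b * ‖z‖ ^ 2) = Real.pi / b := by
  have h := GaussianFourier.integral_rexp_neg_mul_sq_norm (V := ℂ) (b := b) hb
  rw [Complex.finrank_real_complex] at h
  simpa using h

theorem integral_gd : ∫ z : ℂ, gd z = 1 := by
  unfold gd
  rw [integral_div]
  have h := integral_exp_neg 1 one_pos
  have h' : ∫ z : ℂ, Real.exp (-‖z‖ ^ 2) = Real.pi := by simpa using h
  rw [h', div_self Real.pi_ne_zero]

theorem integrable_gd : Integrable gd := by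
  by_contra h
  have := integral_undef h
  rw [integral_gd] at this
  exact one_ne_zero this

instance : IsProbabilityMeasure gc := by
  refine ⟨?_⟩
  rw [gc, withDensity_apply _ MeasurableSet.univ, Measure.restrict_univ,
    ← ofReal_integral_eq_lintegral_ofReal integrable_gd (Filter.Eventually.of_forall gd_nonneg),
    integral_gd, ENNReal.ofReal_one]

/-- integrals with respect to `gc` -/
theorem integral_gc {F : Type*} [NormedAddCommGroup F] [NormedSpace ℝ F] (f : ℂ → F) :
    ∫ z, f z ∂gc = ∫ z, gd z • f z := by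
  rw [gc, integral_withDensity_eq_integral_toReal_smul measurable_gd
    (ae_of_all _ fun _ => ENNReal.ofReal_lt_top)]
  simp_rw [ENNReal.toReal_ofReal (gd_nonneg _)]

theorem integrable_gc {F : Type*} [NormedAddCommGroup F] [NormedSpace ℝ F] {f : ℂ → F} :
    Integrable f gc ↔ Integrable (fun z => gd z • f z) := by
  rw [gc, integrable_withDensity_iff_integrable_smul' measurable_gd
    (ae_of_all _ fun _ => ENNReal.ofReal_lt_top)]
  simp_rw [ENNReal.toReal_ofReal (gd_nonneg _)]

theorem lintegral_gc (f : ℂ → ℝ≥0∞) (hf : Measurable f) :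
    ∫⁻ z, f z ∂gc = ∫⁻ z, ENNReal.ofReal (gd z) * f z := by
  rw [gc, lintegral_withDensity_eq_lintegral_mul _ measurable_gd hf]
  rfl

/-- the characteristic function -/
theorem charFun_gc (t : ℂ) : charFun gc t = cexp (-(‖t‖ : ℂ) ^ 2 / 4) := by
  rw [charFun_apply, integral_gc]
  have h := GaussianFourier.integral_cexp_neg_mul_sq_norm_add (V := ℂ) (b := 1) (by simp) I t
  rw [Complex.finrank_real_complex] at h
  have hpi : (Real.pi : ℂ) ≠ 0 := by exact_mod_cast Real.pi_ne_zero
  have e : ∀ z : ℂ, gd z • cexp ((⟪z, t⟫ : ℝ) * I) =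
      (1 / (Real.pi : ℂ)) * cexp (-1 * (‖z‖ : ℂ) ^ 2 + I * (⟪t, z⟫ : ℝ)) := by
    intro z
    rw [real_inner_comm, Complex.exp_add, gd]
    simp only [Complex.real_smul]
    push_cast
    rw [show (-1 : ℂ) * (‖z‖ : ℂ) ^ 2 = -(‖z‖ : ℂ) ^ 2 by ring, mul_comm I]
    ring
  simp_rw [e]
  rw [integral_const_mul, h]
  have e2 : ((2 : ℕ) : ℂ) / 2 = 1 := by norm_num
  rw [e2, Complex.cpow_one, I_sq, div_one, ← mul_assoc, one_div, inv_mul_cancel₀ hpi, one_mul]
  congr 1
  ring

/-- a unit combination of independent standard complex Gaussians is a standard complex Gaussian -/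
theorem map_sum {ι : Type*} [Fintype ι] (w : ι → ℂ) (hw : ∑ i, ‖w i‖ ^ 2 = 1) :
    (Measure.pi fun _ : ι => gc).map (fun u => ∑ i, u i * w i) = gc := by
  have hm : Measurable fun u : ι → ℂ => ∑ i, u i * w i := by fun_prop
  have : IsProbabilityMeasure ((Measure.pi fun _ : ι => gc).map (fun u => ∑ i, u i * w i)) :=
    Measure.isProbabilityMeasure_map hm.aemeasurable
  refine Measure.ext_of_charFun (funext fun t => ?_)
  rw [charFun_apply, integral_map hm.aemeasurable (by fun_prop)]
  have e : ∀ u : ι → ℂ, cexp ((⟪∑ i, u i * w i, t⟫ : ℝ) * I) =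
      ∏ i, cexp ((⟪u i, conj (w i) * t⟫ : ℝ) * I) := by
    intro u
    rw [← Complex.exp_sum, sum_inner]
    push_cast
    rw [Finset.sum_mul]
    congr 1
    refine Finset.sum_congr rfl fun i _ => ?_
    congr 2
    simp only [Complex.inner, map_mul]
    congr 1
    ring
  simp_rw [e]
  rw [integral_fintype_prod_eq_prod (fun i (z : ℂ) => cexp ((⟪z, conj (w i) * t⟫ : ℝ) * I))]
  have e2 : ∀ i, ∫ z, cexp ((⟪z, conj (w i) * t⟫ : ℝ) * I) ∂gc =
      cexp (-((‖w i‖ ^ 2 * ‖t‖ ^ 2 : ℝ) : ℂ) / 4) := by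
    intro i
    rw [← charFun_apply, charFun_gc]
    congr 1
    push_cast
    rw [norm_mul, RCLike.norm_conj]
    push_cast
    ring
  simp_rw [e2]
  rw [← Complex.exp_sum, charFun_gc, ← Finset.sum_div, Finset.sum_neg_distrib]
  congr 2
  rw [← Complex.ofReal_sum, ← Finset.sum_mul, hw]
  push_cast
  ring

end Pool.Agent.H51.KB
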