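import Pool.Agent.H51.KB.Gc
import Pool.Agent.H64.KB.Gauss

/-!
# Moments of the standard complex Gaussian measure
-/

set_option autoImplicit false

open MeasureTheory Complex
open scoped ENNReal ComplexConjugate RealInnerProductSpace

namespace Pool.Agent.H51.KB

/-- rotation by a number of absolute value one -/
theorem map_mul (c : ℂ) (hc : ‖c‖ = 1) : gc.map (fun z => z * c) = gc := by
  have hm : Measurable fun z : ℂ => z * c := by fun_prop
  have : IsProbabilityMeasure (gc.map (fun z => z * c)) :=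
    Measure.isProbabilityMeasure_map hm.aemeasurable
  refine Measure.ext_of_charFun (funext fun t => ?_)
  rw [charFun_apply, integral_map hm.aemeasurable (by fun_prop)]
  have e : ∀ z : ℂ, cexp ((⟪z * c, t⟫ : ℝ) * I) = cexp ((⟪z, conj c * t⟫ : ℝ) * I) := by
    intro z
    congr 2
    simp only [Complex.inner, _root_.map_mul]
    congr 1
    ring_nf
  simp_rw [e]
  rw [← charFun_apply, charFun_gc, charFun_gc, norm_mul, RCLike.norm_conj, hc, one_mul]

theorem integral_rot (c : ℂ) (hc : ‖c‖ = 1) (f : ℂ → ℂ) (hf : Measurable f) :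
    ∫ z, f (z * c) ∂gc = ∫ z, f z ∂gc := by
  conv_rhs => rw [← map_mul c hc]
  rw [integral_map (by fun_prop) hf.aestronglyMeasurable]

theorem integral_one' : ∫ z, z ∂gc = 0 := by
  have h := integral_rot (-1) (by simp) (fun z => z) measurable_id
  simp only [mul_neg, mul_one] at h
  have h2 : ∫ z : ℂ, -z ∂gc = -∫ z : ℂ, z ∂gc := integral_neg (fun z : ℂ => z)
  rw [h2] at h
  linear_combination (-1 / 2 : ℂ) * h

theorem norm_pow (m : ℕ) : ∫ z, ‖z‖ ^ m ∂gc = Real.Gamma (((m : ℝ) + 2) / 2) := by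
  rw [integral_gc]
  have h := Complex.integral_rpow_mul_exp_neg_rpow (p := 2) (q := m) (by norm_num)
    (by have := Nat.cast_nonneg (α := ℝ) m; linarith)
  have e : ∀ z : ℂ, gd z • ‖z‖ ^ m = Real.pi⁻¹ * (‖z‖ ^ (m : ℝ) * Real.exp (-‖z‖ ^ (2 : ℝ))) := by
    intro z
    rw [gd, smul_eq_mul, Real.rpow_natCast, Real.rpow_two]
    ring
  simp_rw [e]
  rw [integral_const_mul, h]
  have := Real.pi_ne_zero
  field_simp

theorem integrable_norm_pow (m : ℕ) : Integrable (fun z : ℂ => ‖z‖ ^ m) gc := by
  by_contra h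
  have h1 := integral_undef h
  rw [norm_pow] at h1
  exact (Real.Gamma_pos_of_pos (by positivity)).ne' h1

theorem stdC : Pool.H64.KB.StdC gc where
  mom := ⟨measurable_id, integrable_norm_pow⟩
  one := integral_one'
  two := by
    have e : ∀ z : ℂ, z * star z = ((‖z‖ ^ 2 : ℝ) : ℂ) := by
      intro z
      rw [Complex.star_def, Complex.mul_conj, Complex.normSq_eq_norm_sq]
    simp_rw [e]
    rw [integral_complex_ofReal, norm_pow]
    norm_num [Real.Gamma_two]
  four := by
    have e : ∀ z : ℂ, (z * star z) * (z * star z) = ((‖z‖ ^ 4 : ℝ) : ℂ) := by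
      intro z
      rw [Complex.star_def, Complex.mul_conj, Complex.normSq_eq_norm_sq]
      push_cast
      ring
    simp_rw [e]
    rw [integral_complex_ofReal, norm_pow]
    have h3 : Real.Gamma ((((4 : ℕ) : ℝ) + 2) / 2) = 2 := by
      have : (((4 : ℕ) : ℝ) + 2) / 2 = ((2 : ℕ) : ℝ) + 1 := by norm_num
      rw [this, Real.Gamma_nat_eq_factorial]
      norm_num [Nat.factorial]
    rw [h3]
    norm_num

end Pool.Agent.H51.KB
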