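import Pool.Agent.H97.KB.Point
import Pool.Agent.H51.KB.BadI

/-!
# The tail bound in the form of module V4
-/

set_option autoImplicit false

open MeasureTheory Finset
open scoped ENNReal

namespace Pool.Agent.H51.KB

open H97KB Pool.Agent.H57.KB

theorem tailB (n : ℕ) {y : ℚ} (hy : y ≤ 1 / 100000) :
    TailB n (4 * n) gc ((y : ℝ) * n) ((1 / 20) ^ n) := by
  intro I hI
  have hy' : (y : ℝ) ≤ 1 / 100000 := by
    have h : (y : ℝ) ≤ ((1 / 100000 : ℚ) : ℝ) := Rat.cast_le.mpr hy
    push_cast at h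
    exact h
  have hn : (0 : ℝ) ≤ n := Nat.cast_nonneg n
  refine (badI_le (by nlinarith) I hI).trans ?_
  exact pow_le_pow_left₀ (by norm_num) (by norm_num) n

end Pool.Agent.H51.KB
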